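import Pool.Agent.Helper4.PF.Pack
import Pool.Agent.Helper4.PU.Long

namespace Pool.Agent.Helper4.PF

open Set MeasureTheory Filter Topology
open Pool.Agent.Helper57.Zeta
open Pool.Agent.Helper57.PC
open Pool.Agent.Helper57.LH (WP WP_mono WP_nonneg WP_add WP_smul WP_neg WP_sum CLA CLA_pos one_le_log Gm Gm_nonneg gB gB_cont gB_le gB_nonneg log_pow_le NT_le_ev ic ic_apply ic_nonneg ic_le_one pairCount_WP)
open Pool.Agent.Helper4.PC
open Pool.Agent.Helper4.PU

lemma Wf_nonneg {B : ℝ} (hB : 0 < B) (α β u : ℝ) : 0 ≤ Wf B α β u := by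
  unfold Wf
  apply integral_nonneg
  intro s
  apply mul_nonneg _ (kk_nonneg hB _)
  unfold Sw
  exact indicator_nonneg (fun _ _ => zero_le_one) _

lemma CT_Aw_abs {B : ℝ} (hB : 0 < B) {α β : ℝ} (hab : α ≤ β) : ∫ u, |CT (Aw B α β) u| = β - α := by
  have e : (fun u => |CT (Aw B α β) u|) = CT (Aw B α β) := by
    funext u
    apply abs_of_nonneg
    rw [CT_Aw hB]
    have h1 := Wf_nonneg hB α β u
    have h2 := Wf_nonneg hB α β (-u)
    positivity
  rw [e, CT_Aw_integral hB hab]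

/-- The bounded error law for windows up to a power of T. -/
theorem bounded_error_P {c K : ℝ} (hc : 0 < c) (hc1 : c ≤ 1/20) (hK : 1 ≤ K) (hP : ∀ᶠ T : ℝ in atTop, PackP c K T) :
    ∃ C : ℝ, 0 < C ∧ ∀ᶠ T : ℝ in atTop, ∀ α β : ℝ, α ≤ β → |α| ≤ T ^ (1/2 : ℝ) → |β| ≤ T ^ (1/2 : ℝ) → β - α ≤ T ^ c →
    |pairCount T α β - SN T * AT T * (β - α)| ≤ C * SN T := by
  set B₀ : ℝ := 9600 with hB₀
  have hB0 : 0 < B₀ := by rw [hB₀]; norm_num
  have hB4 : 0 < 4 * B₀ := by positivity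
  have hg := g0_pos
  have hc3 := C3_pos
  have hl := Real.tendsto_log_atTop
  have hW0 := W0_pos
  refine ⟨2 * C3 * (K * (4 * B₀)) + (8 / g0) * (2 * (K / B₀)) + 1, by positivity, ?_⟩
  filter_upwards [hP, pow_small (2 * (4 * B₀ * W0 / g0)) (s := 1/10) (by norm_num), eventually_ge_atTop (7:ℝ)] with T hT g1 g2 α β hab hα hβ hwin
  obtain ⟨hbig, hCAL, hB4L, hker, hQQ⟩ := hT
  have hT3 := hbig.h3
  have hT1 : 1 < T := by linarith
  have hT0 : 0 < T := by linarith
  have hS := SN_pos hT1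
  have hba : 0 ≤ β - α := by linarith
  have hfin := nuS_finite hbig
  -- the scale
  obtain ⟨J, hJ1, hJ2⟩ := exists_nat_pow_near (x := max 1 ((β - α) / B₀)) (y := (2:ℝ)) (le_max_left _ _) (by norm_num)
  have hJ' : β - α ≤ 2 * (2 ^ J * B₀) := by
    have h1 : (β - α) / B₀ < 2 ^ (J + 1) := lt_of_le_of_lt (le_max_right _ _) hJ2
    rw [div_lt_iff₀ hB0, pow_succ] at h1
    linarith
  have hJL : 2 ^ J * B₀ ≤ T ^ c := by
    rcases le_total 1 ((β - α) / B₀) with h | h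
    · rw [max_eq_right h, le_div_iff₀ hB0] at hJ1
      linarith
    · rw [max_eq_left h] at hJ1
      nlinarith
  have hpos : ∀ i : ℕ, 0 < 2 ^ i * B₀ := fun i => by positivity
  have hge : ∀ i : ℕ, 9600 ≤ 2 ^ i * B₀ := by
    intro i
    have : (1:ℝ) ≤ 2 ^ i := one_le_pow₀ (by norm_num)
    rw [hB₀]; linarith
  have hle : ∀ i ∈ Finset.range (J + 1), 2 ^ i * B₀ ≤ T ^ c := by
    intro i hi
    rw [Finset.mem_range, Nat.lt_succ_iff] at hi
    refine le_trans ?_ hJL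
    have : (2:ℝ) ^ i ≤ 2 ^ J := pow_le_pow_right₀ (by norm_num) hi
    gcongr
  -- main comparison
  have h1 := hQQ (CT (Aw (4 * B₀) α β)) ((β - α) * om (T ^ (1/2 : ℝ)) * (4 * B₀ * W0 / g0)) (β - α)
    (Wb_CT_Aw (by rw [hB₀]; norm_num) hab hα hβ) (CT_Aw_abs hB4 hab).le (by
      have a1 : om (T ^ (1/2 : ℝ)) ≤ 2 * T ^ (1/4 : ℝ) := by
        unfold om
        rw [abs_of_pos (by positivity), Real.sqrt_eq_rpow, ← Real.rpow_mul hT0.le]
        have : (1:ℝ) ≤ T ^ (1/4 : ℝ) := Real.one_le_rpow hT1.le (by norm_num)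
        have e : (1/2 : ℝ) * (1/2) = 1/4 := by norm_num
        rw [e]
        linarith
      have a2 := om_pos (T ^ (1/2 : ℝ))
      have a3 : β - α ≤ T ^ (1/20 : ℝ) := hwin.trans (Real.rpow_le_rpow_of_exponent_le hT1.le hc1)
      have e2 : T ^ (2/5 : ℝ) = T ^ (1/10 : ℝ) * (T ^ (1/4 : ℝ) * T ^ (1/20 : ℝ)) := by
        rw [← Real.rpow_add hT0, ← Real.rpow_add hT0]; norm_num
      rw [e2]
      calc (β - α) * om (T ^ (1/2 : ℝ)) * (4 * B₀ * W0 / g0) ≤ T ^ (1/20 : ℝ) * (2 * T ^ (1/4 : ℝ)) * (4 * B₀ * W0 / g0) := by gcongr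
        _ = (2 * (4 * B₀ * W0 / g0)) * (T ^ (1/4 : ℝ) * T ^ (1/20 : ℝ)) := by ring
        _ ≤ T ^ (1/10 : ℝ) * (T ^ (1/4 : ℝ) * T ^ (1/20 : ℝ)) := by gcongr) hwin
  rw [CT_Aw_integral hB4 hab] at h1
  have h1' : SN T / T ^ c ≤ SN T := by
    apply div_le_self hS.le
    linarith
  -- the smooth part
  have h4 : |QQ (muT T) (nuS T) (CT (Aw (4 * B₀) α β))| ≤ ∑ i ∈ Finset.range (J + 1), (8 / g0) * QQ (muT T) (nuS T) (gB (2 ^ i * B₀)) := by
    have h5 := QQ_dom (muT T) (nuS T) (Aw_integrable hB4 α β)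
      (A' := fun ξ => ∑ i ∈ Finset.range (J + 1), (8 / g0) * gh (2 ^ i * B₀) ξ)
      (integrable_finsetSum _ fun i _ => (gh_integrable (hpos i)).const_mul _) (Aw_dom hB0 hab J hJ')
    rw [QQ_sum _ _ _ _ _ (fun i _ => gh_integrable (hpos i))] at h5
    refine h5.trans (le_of_eq ?_)
    apply Finset.sum_congr rfl
    intro i _
    rw [CT_gh_fun (hpos i)]
  have h5 : ∑ i ∈ Finset.range (J + 1), (8 / g0) * QQ (muT T) (nuS T) (gB (2 ^ i * B₀)) ≤ ((8 / g0) * (2 * (K / B₀))) * SN T := by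
    calc ∑ i ∈ Finset.range (J + 1), (8 / g0) * QQ (muT T) (nuS T) (gB (2 ^ i * B₀))
        ≤ ∑ i ∈ Finset.range (J + 1), (8 / g0) * (SN T * ((K / B₀) / 2 ^ i)) := by
          apply Finset.sum_le_sum
          intro i hi
          have h6 := (hker (2 ^ i * B₀) (hge i) (hle i hi)).2
          have e : K * (SN T / (2 ^ i * B₀)) = SN T * ((K / B₀) / 2 ^ i) := by field_simp
          rw [e] at h6
          gcongr
      _ = (8 / g0) * SN T * (∑ i ∈ Finset.range (J + 1), (K / B₀) / 2 ^ i) := by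
          rw [Finset.mul_sum]
          apply Finset.sum_congr rfl
          intro i _
          ring
      _ ≤ (8 / g0) * SN T * (2 * (K / B₀)) := by
          have := sum_geom (K / B₀) (by positivity) J
          gcongr
      _ = _ := by ring
  have h6 : WP T (CT (Aw (4 * B₀) α β)) = WP T (Wf (4 * B₀) α β) := by
    have e : CT (Aw (4 * B₀) α β) = fun u => (1 / 2) * (Wf (4 * B₀) α β u + Wf (4 * B₀) α β (-u)) := funext (CT_Aw hB4 α β)
    rw [e, WP_smul, WP_add, WP_neg]; ring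
  -- the sharp part
  have h3 : WP T (gB (4 * B₀)) ≤ K * (SN T * (4 * B₀)) := (hker (4 * B₀) (by rw [hB₀]; norm_num) (by rw [hB₀]; linarith)).1
  have h7 : |WP T (ic (Icc α β)) - WP T (Wf (4 * B₀) α β)| ≤ 2 * C3 * (K * (SN T * (4 * B₀))) := by
    have e1 : WP T (ic (Icc α β)) - WP T (Wf (4 * B₀) α β) = WP T (fun u => ic (Icc α β) u - Wf (4 * B₀) α β u) := by
      have := WP_add T (fun u => ic (Icc α β) u) (fun u => (-1) * Wf (4 * B₀) α β u)
      rw [WP_smul] at this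
      have e2 : (fun u => ic (Icc α β) u - Wf (4 * B₀) α β u) = fun u => ic (Icc α β) u + (-1) * Wf (4 * B₀) α β u := by
        funext u; ring
      rw [e2, this]; ring
    have e3 : WP T (fun u => C3 * Gm ((u - α) / (4 * B₀)) + C3 * Gm ((u - β) / (4 * B₀))) ≤ 2 * C3 * (K * (SN T * (4 * B₀))) := by
      rw [WP_add, WP_smul, WP_smul]
      have a1 := (WP_shift hB4 T α).trans h3
      have a2 := (WP_shift hB4 T β).trans h3
      have a3 : C3 * WP T (fun u => Gm ((u - α) / (4 * B₀))) ≤ C3 * (K * (SN T * (4 * B₀))) := by gcongr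
      have a4 : C3 * WP T (fun u => Gm ((u - β) / (4 * B₀))) ≤ C3 * (K * (SN T * (4 * B₀))) := by gcongr
      linarith
    rw [e1]
    have hcl := Wf_close hB4 α β
    rw [abs_le]
    constructor
    · have a1 : WP T (fun u => -(C3 * Gm ((u - α) / (4 * B₀)) + C3 * Gm ((u - β) / (4 * B₀)))) ≤ WP T (fun u => ic (Icc α β) u - Wf (4 * B₀) α β u) :=
        WP_mono (fun u => (abs_le.mp (hcl u)).1)
      have a2 : WP T (fun u => -(C3 * Gm ((u - α) / (4 * B₀)) + C3 * Gm ((u - β) / (4 * B₀)))) = - WP T (fun u => C3 * Gm ((u - α) / (4 * B₀)) + C3 * Gm ((u - β) / (4 * B₀))) := by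
        have := WP_smul T (-1) (fun u => C3 * Gm ((u - α) / (4 * B₀)) + C3 * Gm ((u - β) / (4 * B₀)))
        simp only [neg_mul, one_mul] at this
        exact this
      rw [a2] at a1
      exact (neg_le_neg e3).trans a1
    · exact (WP_mono (fun u => (abs_le.mp (hcl u)).2)).trans e3
  rw [pairCount_WP]
  rw [h6] at h1
  have b1 := abs_le.mp (h1.trans h1')
  have b2 := abs_le.mp (h4.trans h5)
  have b3 := abs_le.mp h7
  obtain ⟨c1, hc1'⟩ : ∃ c, c = 2 * C3 * (K * (4 * B₀)) := ⟨_, rfl⟩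
  obtain ⟨c2, hc2'⟩ : ∃ c, c = (8 / g0) * (2 * (K / B₀)) := ⟨_, rfl⟩
  have hc1'' : 2 * C3 * (K * (SN T * (4 * B₀))) = c1 * SN T := by rw [hc1']; ring
  rw [hc1''] at b3
  rw [← hc2'] at b2
  rw [← hc1', ← hc2']
  rw [abs_le]
  constructor
  · linarith [b1.1, b1.2, b2.1, b2.2, b3.1, b3.2]
  · linarith [b1.1, b1.2, b2.1, b2.2, b3.1, b3.2]

/-! long windows -/

lemma long_indA {T C w R A : ℝ} (hC : 0 ≤ C) (hw : 0 < w) (hS : 0 ≤ SN T)
    (h : ∀ α β : ℝ, α ≤ β → |α| ≤ R → |β| ≤ R → β - α ≤ w → |pairCount T α β - A * (β - α)| ≤ C * SN T) (n : ℕ) :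
    ∀ α β : ℝ, α ≤ β → |α| ≤ R → |β| ≤ R → β - α ≤ (n + 1) * w → |pairCount T α β - A * (β - α)| ≤ (n + 1) * (2 * C * SN T) := by
  induction n with
  | zero =>
    intro α β h1 h2 h3 h4
    have := h α β h1 h2 h3 (by simpa using h4)
    have h5 : 0 ≤ C * SN T := by positivity
    refine this.trans ?_
    push_cast
    linarith
  | succ n ih =>
    intro α β h1 h2 h3 h4
    have h5 : 0 ≤ C * SN T := by positivity
    rcases le_or_gt (β - α) w with h6 | h6
    · refine (h α β h1 h2 h3 h6).trans ?_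
      push_cast
      have : (0:ℝ) ≤ n := Nat.cast_nonneg n
      nlinarith [mul_nonneg this h5]
    · push_cast at h4
      have hm1 : α ≤ β - w := by linarith
      have hm2 : β - w ≤ β := by linarith
      have hm3 : |β - w| ≤ R := by
        rw [abs_le] at h2 h3 ⊢
        constructor <;> linarith [h2.1, h3.2]
      have k1 := abs_le.mp (ih α (β - w) hm1 h2 hm3 (by linarith))
      have k2 := abs_le.mp (h (β - w) β hm2 hm3 h3 (by linarith))
      have k3 := abs_le.mp (h (β - w) (β - w) le_rfl hm3 hm3 (by linarith))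
      have k4 := pairCount_split T α (β - w) β
      have k5 := pairCount_super T hm1 hm2
      rw [sub_self, mul_zero, sub_zero] at k3
      have e1 : A * (β - w - α) + A * (β - (β - w)) = A * (β - α) := by ring
      rw [abs_le]
      push_cast
      constructor
      · linarith [k1.1, k2.1, k3.2]
      · linarith [k1.2, k2.2]

theorem long_windows_P {c C : ℝ} (hc : 0 < c) (hC : 0 < C) (h : ∀ᶠ T : ℝ in atTop, ∀ α β : ℝ, α ≤ β → |α| ≤ T ^ (1/2 : ℝ) → |β| ≤ T ^ (1/2 : ℝ) → β - α ≤ T ^ c →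
      |pairCount T α β - SN T * AT T * (β - α)| ≤ C * SN T) :
    ∀ᶠ T : ℝ in atTop, ∀ α β : ℝ, α ≤ β → |α| ≤ T ^ (1/2 : ℝ) → |β| ≤ T ^ (1/2 : ℝ) →
      |pairCount T α β - SN T * AT T * (β - α)| ≤ 2 * C * (1 + (β - α) / T ^ c) * SN T := by
  filter_upwards [h, eventually_gt_atTop 1] with T hT hT1 α β hab hα hβ
  have hS := SN_pos hT1
  have hw : 0 < T ^ c := by positivity
  have hba : 0 ≤ β - α := by linarith
  have hn := Nat.lt_floor_add_one ((β - α) / T ^ c)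
  have hn2 := Nat.floor_le (show 0 ≤ (β - α) / T ^ c by positivity)
  set n := ⌊(β - α) / T ^ c⌋₊ with hnd
  rw [div_lt_iff₀ hw] at hn
  have h1 := long_indA hC.le hw hS.le hT n α β hab hα hβ hn.le
  refine h1.trans ?_
  calc ((n:ℝ) + 1) * (2 * C * SN T) ≤ (1 + (β - α) / T ^ c) * (2 * C * SN T) := by
        have h2 : 0 ≤ 2 * C * SN T := by positivity
        have h3 : (n:ℝ) + 1 ≤ 1 + (β - α) / T ^ c := by linarith
        exact mul_le_mul_of_nonneg_right h3 h2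
    _ = _ := by ring

end Pool.Agent.Helper4.PF
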