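import Pool.Agent.Helper4.PU.Final

namespace Pool.Agent.Helper4.PF

open Set MeasureTheory Filter Topology
open Pool.Agent.Helper57.Zeta
open Pool.Agent.Helper57.PC
open Pool.Agent.Helper57.LH (one_le_log)
open Pool.Agent.Helper4.PC
open Pool.Agent.Helper4.PU

/-- the density of the rescaled ordinates -/
noncomputable def dd (T : ℝ) : ℝ → ℝ := (Icc (Real.log T) (SN T)).indicator (fun x => Real.log (x / Real.log T) / Real.log T)

/-- standing assumption -/
structure Big (T : ℝ) : Prop where
  h3 : 3 ≤ T
  h4 : 7 ≤ T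

lemma Big.L0 {T : ℝ} (h : Big T) : 1 ≤ Real.log T := one_le_log h.h3

lemma Big.Lpos {T : ℝ} (h : Big T) : 0 < Real.log T := by linarith [h.L0]

lemma Big.S0 {T : ℝ} (h : Big T) : 0 < SN T := SN_pos (by linarith [h.h3])

lemma Big.SL {T : ℝ} (h : Big T) : SN T / Real.log T = T / (2 * Real.pi) := by
  have := h.Lpos
  have hpi := Real.pi_pos
  unfold SN
  field_simp

lemma Big.LS {T : ℝ} (h : Big T) : Real.log T ≤ SN T := by
  have hL := h.Lpos
  have hpi := Real.pi_pos
  have hpi2 := Real.pi_lt_d2
  have h4 := h.h4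
  unfold SN
  rw [le_div_iff₀ (by positivity)]
  nlinarith

lemma dd_of_mem {T x : ℝ} (hx : x ∈ Icc (Real.log T) (SN T)) : dd T x = Real.log (x / Real.log T) / Real.log T := by
  unfold dd
  rw [indicator_of_mem hx]

lemma dd_of_notMem {T x : ℝ} (hx : x ∉ Icc (Real.log T) (SN T)) : dd T x = 0 := by
  unfold dd
  rw [indicator_of_notMem hx]

lemma dd_nonneg {T : ℝ} (h : Big T) (x : ℝ) : 0 ≤ dd T x := by
  have hL := h.Lpos
  by_cases hx : x ∈ Icc (Real.log T) (SN T)
  · rw [dd_of_mem hx]
    apply div_nonneg _ hL.le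
    apply Real.log_nonneg
    rw [one_le_div hL]
    exact hx.1
  · rw [dd_of_notMem hx]

lemma dd_mono {T x y : ℝ} (h : Big T) (hxy : x ≤ y) (hy : y ≤ SN T) : dd T x ≤ dd T y := by
  have hL := h.Lpos
  by_cases hx : x ∈ Icc (Real.log T) (SN T)
  · rw [dd_of_mem hx, dd_of_mem ⟨hx.1.trans hxy, hy⟩]
    apply div_le_div_of_nonneg_right _ hL.le
    apply Real.log_le_log
    · have := hx.1
      exact div_pos (by linarith) hL
    · gcongr
  · rw [dd_of_notMem hx]
    exact dd_nonneg h y

lemma dd_gt {T x : ℝ} (hx : SN T < x) : dd T x = 0 := dd_of_notMem (fun h => absurd h.2 (not_le.mpr hx))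

lemma dd_lt {T x : ℝ} (hx : x < Real.log T) : dd T x = 0 := dd_of_notMem (fun h => absurd h.1 (not_le.mpr hx))

lemma dd_le_one {T : ℝ} (h : Big T) (x : ℝ) : dd T x ≤ 1 := by
  have hL := h.Lpos
  have hell := ell_nonneg
  by_cases hx : x ∈ Icc (Real.log T) (SN T)
  · refine (dd_mono h hx.2 le_rfl).trans ?_
    rw [dd_of_mem ⟨h.LS, le_rfl⟩, h.SL, Real.log_div (by linarith [h.h3]) (by positivity)]
    rw [div_le_one hL]
    change Real.log T - ell ≤ Real.log T
    linarith
  · rw [dd_of_notMem hx]; norm_num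

lemma dd_measurable (T : ℝ) : Measurable (dd T) := by
  unfold dd
  apply Measurable.indicator _ measurableSet_Icc
  fun_prop

lemma dd_integrable {T : ℝ} (h : Big T) : Integrable (dd T) := by
  have h1 : Integrable ((Icc (Real.log T) (SN T)).indicator (fun _ => (1:ℝ))) := by
    rw [integrable_indicator_iff measurableSet_Icc]
    exact integrableOn_const (by simp)
  refine h1.mono' (dd_measurable T).aestronglyMeasurable ?_
  filter_upwards with x
  rw [Real.norm_of_nonneg (dd_nonneg h x)]
  by_cases hx : x ∈ Icc (Real.log T) (SN T)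
  · rw [indicator_of_mem hx]; exact dd_le_one h x
  · rw [indicator_of_notMem hx, dd_of_notMem hx]

lemma dd_sq_integrable {T : ℝ} (h : Big T) : Integrable (fun x => dd T x ^ 2) := by
  refine (dd_integrable h).mono' ((dd_measurable T).pow_const 2).aestronglyMeasurable ?_
  filter_upwards with x
  have h1 := dd_nonneg h x
  have h2 := dd_le_one h x
  rw [Real.norm_of_nonneg (by positivity)]
  nlinarith

/-- primitive of the density -/
noncomputable def HH (T x : ℝ) : ℝ := x / Real.log T * (Real.log (x / Real.log T) - 1) + 1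

lemma HH_deriv {T x : ℝ} (h : Big T) (hx : 0 < x) : HasDerivAt (HH T) (Real.log (x / Real.log T) / Real.log T) x := by
  have hL := h.Lpos
  have h0 : 0 < x / Real.log T := by positivity
  have h1 : HasDerivAt (fun y : ℝ => y / Real.log T) (1 / Real.log T) x := (hasDerivAt_id x).div_const _
  have h2 : HasDerivAt (fun y : ℝ => Real.log (y / Real.log T)) ((1 / Real.log T) / (x / Real.log T)) x := h1.log h0.ne'
  have h3 := (h1.mul (h2.sub_const 1)).add_const 1
  refine h3.congr_deriv ?_
  field_simp
  ring

lemma dd_int_Icc {T x : ℝ} (h : Big T) (h1 : Real.log T ≤ x) (h2 : x ≤ SN T) : ∫ y in Iic x, dd T y = HH T x := by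
  have hL := h.Lpos
  have e1 : ∫ y in Iic x, dd T y = ∫ y in (Real.log T)..x, Real.log (y / Real.log T) / Real.log T := by
    rw [intervalIntegral.integral_of_le h1, ← integral_Icc_eq_integral_Ioc, ← integral_indicator measurableSet_Iic,
      ← integral_indicator measurableSet_Icc]
    congr 1; funext y
    by_cases hy : y ∈ Icc (Real.log T) x
    · rw [indicator_of_mem hy, indicator_of_mem (show y ∈ Iic x from hy.2), dd_of_mem ⟨hy.1, hy.2.trans h2⟩]
    · rw [indicator_of_notMem hy]
      by_cases hy2 : y ∈ Iic x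
      · rw [indicator_of_mem hy2, dd_lt]
        by_contra hc
        push Not at hc
        exact hy ⟨hc, hy2⟩
      · rw [indicator_of_notMem hy2]
  rw [e1]
  have hd : ∀ y ∈ uIcc (Real.log T) x, HasDerivAt (HH T) (Real.log (y / Real.log T) / Real.log T) y := by
    intro y hy
    rw [uIcc_of_le h1] at hy
    exact HH_deriv h (by linarith [hy.1])
  rw [intervalIntegral.integral_eq_sub_of_hasDerivAt hd]
  · unfold HH
    rw [div_self hL.ne', Real.log_one]
    ring
  · apply ContinuousOn.intervalIntegrable
    rw [uIcc_of_le h1]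
    apply ContinuousOn.div_const
    apply ContinuousOn.log
    · fun_prop
    · intro y hy
      have : 0 < y := by linarith [hy.1]
      positivity

lemma dd_integral {T : ℝ} (h : Big T) : ∫ y, dd T y = HH T (SN T) := by
  rw [← dd_int_Icc h h.LS le_rfl]
  symm
  apply setIntegral_eq_integral_of_forall_compl_eq_zero
  intro x hx
  exact dd_gt (by simpa using hx)

lemma dd_integral_le {T : ℝ} (h : Big T) : ∫ y, dd T y ≤ SN T := by
  have h1 : ∫ y, dd T y ≤ ∫ y, (Icc (Real.log T) (SN T)).indicator (fun _ => (1:ℝ)) y := by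
    apply integral_mono (dd_integrable h)
    · rw [integrable_indicator_iff measurableSet_Icc]
      exact integrableOn_const (by simp)
    · intro x
      by_cases hx : x ∈ Icc (Real.log T) (SN T)
      · rw [indicator_of_mem hx]; exact dd_le_one h x
      · rw [indicator_of_notMem hx, dd_of_notMem hx]
  rw [integral_indicator measurableSet_Icc, setIntegral_const] at h1
  have h2 : volume.real (Icc (Real.log T) (SN T)) = SN T - Real.log T := by
    simp [Measure.real, h.LS]
  rw [h2, smul_eq_mul, mul_one] at h1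
  linarith [h.Lpos]

lemma dd_integral_nonneg {T : ℝ} (h : Big T) : 0 ≤ ∫ y, dd T y := integral_nonneg (dd_nonneg h)

/-- the second moment -/
lemma dd_sq_integral {T : ℝ} (h : Big T) : ∫ y, dd T y ^ 2 = SN T * AT T - 2 / Real.log T := by
  have hL := h.Lpos
  have hpi := Real.pi_pos
  have e1 : ∫ y, dd T y ^ 2 = ∫ y in (Real.log T)..(SN T), (1 / Real.log T ^ 2) * (fun s => Real.log s ^ 2) (y / Real.log T) := by
    rw [intervalIntegral.integral_of_le h.LS, ← integral_Icc_eq_integral_Ioc, ← integral_indicator measurableSet_Icc]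
    congr 1; funext y
    by_cases hy : y ∈ Icc (Real.log T) (SN T)
    · rw [indicator_of_mem hy, dd_of_mem hy]
      simp only
      rw [div_pow]; ring
    · rw [indicator_of_notMem hy, dd_of_notMem hy]; ring
  rw [e1, intervalIntegral.integral_const_mul, intervalIntegral.integral_comp_div (fun s => Real.log s ^ 2) hL.ne', div_self hL.ne', h.SL]
  have e2 : ∫ s in (1:ℝ)..(T / (2 * Real.pi)), Real.log s ^ 2 = (∫ s in (0:ℝ)..(T / (2 * Real.pi)), Real.log s ^ 2) - ∫ s in (0:ℝ)..1, Real.log s ^ 2 := by
    have hi : ∀ b : ℝ, 0 ≤ b → IntervalIntegrable (fun s => Real.log s ^ 2) volume 0 b := by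
      intro b hb
      rw [intervalIntegrable_iff_integrableOn_Ioc_of_le hb]
      exact intervalIntegral.integrableOn_deriv_of_nonneg cont_sqlog.continuousOn (fun x hx => hasDeriv_sqlog hx.1.ne') (fun x _ => sq_nonneg _)
    rw [intervalIntegral.integral_interval_sub_left (hi _ (by have := h.h3; positivity)) (hi 1 zero_le_one)]
  rw [e2, int_sqlog (by have := h.h3; positivity), int_sqlog zero_le_one, Real.log_one, smul_eq_mul]
  rw [Real.log_div (by linarith [h.h3]) (by positivity)]
  unfold AT SN
  field_simp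
  ring

end Pool.Agent.Helper4.PF
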