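import Pool.Agent.Helper4.PF.BE

namespace Pool.Agent.Helper4.PF

open Set MeasureTheory Filter Topology
open Pool.Agent.Helper57.Zeta
open Pool.Agent.Helper57.PC
open Pool.Agent.Helper4.PC
open Pool.Agent.Helper4.PU

/-- bounded error for all windows up to a power of `T`, anywhere up to `√T`, with the exact mean value -/
theorem bounded_full {c θ C C' : ℝ} (hc : 0 < c) (hc1 : c ≤ 1/20) (hθ : 0 ≤ θ) (hcθ : 2 * c + θ < 1) (hC : 0 ≤ C) (hC' : 0 ≤ C')
    (hU : ULP c C) (hN : NLP θ C') :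
    ∃ D : ℝ, 0 < D ∧ ∀ᶠ T : ℝ in atTop, ∀ α β : ℝ, α ≤ β → |α| ≤ Real.sqrt T → |β| ≤ Real.sqrt T →
      |pairCount T α β - SN T * AT T * (β - α)| ≤ D * (1 + (β - α) / T ^ c) * SN T := by
  obtain ⟨K, hK, hP⟩ := exists_packP hc hc1 hθ hcθ hC hC' hU hN
  obtain ⟨C2, hC2, hB⟩ := bounded_error_P hc hc1 hK hP
  have hL := long_windows_P hc hC2 hB
  refine ⟨2 * C2, by linarith, ?_⟩
  filter_upwards [hL] with T hT α β hab hα hβ
  rw [Real.sqrt_eq_rpow] at hα hβ
  exact hT α β hab hα hβ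

/-- the same with the pair correlation density -/
theorem bounded_full_F {c θ C C' : ℝ} (hc : 0 < c) (hc1 : c ≤ 1/20) (hθ : 0 ≤ θ) (hcθ : 2 * c + θ < 1) (hC : 0 ≤ C) (hC' : 0 ≤ C')
    (hU : ULP c C) (hN : NLP θ C') :
    ∃ D : ℝ, 0 < D ∧ ∀ᶠ T : ℝ in atTop, ∀ α β : ℝ, 0 < α → α < β → β ≤ Real.sqrt T →
      |pairCount T α β - SN T * ∫ u in α..β, (pcDensity u + (AT T - 1))| ≤ D * (1 + (β - α) / T ^ c) * SN T := by
  obtain ⟨D, hD, h⟩ := bounded_full hc hc1 hθ hcθ hC hC' hU hN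
  refine ⟨D + 1, by linarith, ?_⟩
  filter_upwards [h, eventually_gt_atTop 1] with T hT hT1 α β hα hαβ hβ
  have hS := SN_pos hT1
  have h1 := abs_le.mp (hT α β hαβ.le (by rw [abs_of_pos hα]; linarith) (by rw [abs_of_pos (by linarith)]; exact hβ))
  have h2 := abs_le.mp (int_F_close hα.le hαβ.le)
  have e : ∫ u in α..β, (pcDensity u + (AT T - 1)) = (∫ u in α..β, pcDensity u) + (AT T - 1) * (β - α) := by
    rw [intervalIntegral.integral_add (intervalIntegrable_pcDensity _ _) intervalIntegrable_const, intervalIntegral.integral_const, smul_eq_mul]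
    ring
  rw [e]
  have h3 : 0 ≤ (β - α) / T ^ c := div_nonneg (by linarith) (by positivity)
  have e2 : (D + 1) * (1 + (β - α) / T ^ c) * SN T = D * (1 + (β - α) / T ^ c) * SN T + (1 + (β - α) / T ^ c) * SN T := by ring
  have h5 : 1 * SN T ≤ (1 + (β - α) / T ^ c) * SN T := by
    apply mul_le_mul_of_nonneg_right _ hS.le
    linarith
  have a1 : SN T * ((∫ u in α..β, pcDensity u) - (β - α)) ≤ SN T * (1 / 2) := by
    apply mul_le_mul_of_nonneg_left h2.2 hS.le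
  have a2 : SN T * (-(1 / 2)) ≤ SN T * ((∫ u in α..β, pcDensity u) - (β - α)) := by
    apply mul_le_mul_of_nonneg_left h2.1 hS.le
  rw [e2, abs_le]
  constructor
  · nlinarith [h1.1, h1.2]
  · nlinarith [h1.1, h1.2]

end Pool.Agent.Helper4.PF
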