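import Pool.Agent.Helper4.PF.Dens

namespace Pool.Agent.Helper4.PF

open Set MeasureTheory Filter Topology
open Pool.Agent.Helper57.Zeta
open Pool.Agent.Helper57.PC
open Pool.Agent.Helper57.LH (one_le_log)
open Pool.Agent.Helper4.PC
open Pool.Agent.Helper4.PU

lemma dd_shift_integrable {T : ℝ} (h : Big T) (s : ℝ) : Integrable (fun x => dd T (x - s)) := (dd_integrable h).comp_sub_right s

lemma tail_le {T s : ℝ} (h : Big T) (hs : 0 ≤ s) : ∫ x in Ioi (SN T), dd T (x - s) ≤ s := by
  have h1 : ∫ x in Ioi (SN T), dd T (x - s) ≤ ∫ x, (Icc (SN T) (SN T + s)).indicator (fun _ => (1:ℝ)) x := by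
    rw [← integral_indicator measurableSet_Ioi]
    apply integral_mono
    · exact (dd_shift_integrable h s).indicator measurableSet_Ioi
    · rw [integrable_indicator_iff measurableSet_Icc]
      exact integrableOn_const (by simp)
    · intro x
      simp only
      by_cases hx : x ∈ Icc (SN T) (SN T + s)
      · rw [indicator_of_mem hx]
        by_cases hx2 : x ∈ Ioi (SN T)
        · rw [indicator_of_mem hx2]; exact dd_le_one h _
        · rw [indicator_of_notMem hx2]; norm_num
      · rw [indicator_of_notMem hx]
        by_cases hx2 : x ∈ Ioi (SN T)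
        · rw [indicator_of_mem hx2, dd_gt]
          by_contra hc
          push Not at hc
          exact hx ⟨le_of_lt hx2, by linarith⟩
        · rw [indicator_of_notMem hx2]
  rw [integral_indicator measurableSet_Icc, setIntegral_const] at h1
  have h2 : volume.real (Icc (SN T) (SN T + s)) = s := by
    simp [Measure.real, hs]
  rwa [h2, smul_eq_mul, mul_one] at h1

lemma tail_le' {T s : ℝ} (h : Big T) : ∫ x in Ioi (SN T), dd T (x - s) ≤ SN T := by
  have h1 : ∫ x in Ioi (SN T), dd T (x - s) ≤ ∫ x, dd T (x - s) :=
    setIntegral_le_integral (dd_shift_integrable h s) (Eventually.of_forall fun x => dd_nonneg h _)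
  have h2 := integral_sub_right_eq_self (μ := volume) (dd T) s
  rw [h2] at h1
  exact h1.trans (dd_integral_le h)

lemma trans_pos {T s : ℝ} (h : Big T) (hs : 0 ≤ s) : ∫ x, |dd T (x - s) - dd T x| ≤ 2 * min s (SN T) := by
  have e : ∀ x, |dd T (x - s) - dd T x| = (dd T x - dd T (x - s)) + 2 * (Ioi (SN T)).indicator (fun x => dd T (x - s)) x := by
    intro x
    by_cases hx : x ∈ Ioi (SN T)
    · rw [indicator_of_mem hx, dd_gt hx, sub_zero, abs_of_nonneg (dd_nonneg h _)]
      ring
    · rw [indicator_of_notMem hx, mul_zero, add_zero, abs_sub_comm, abs_of_nonneg]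
      have := dd_mono h (x := x - s) (y := x) (by linarith) (by simpa using hx)
      linarith
  simp_rw [e]
  have i1 : Integrable (fun x => dd T x - dd T (x - s)) := (dd_integrable h).sub (dd_shift_integrable h s)
  have i2 := ((dd_shift_integrable h s).indicator (measurableSet_Ioi (a := SN T))).const_mul 2
  have h0 := integral_sub_right_eq_self (μ := volume) (dd T) s
  rw [integral_add i1 i2, integral_sub (dd_integrable h) (dd_shift_integrable h s), h0, sub_self, zero_add,
    integral_const_mul, integral_indicator measurableSet_Ioi]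
  have h1 := tail_le h hs
  have h2 := tail_le' (s := s) h
  have := le_min h1 h2
  linarith

lemma trans_le {T : ℝ} (h : Big T) (s : ℝ) : ∫ x, |dd T (x - s) - dd T x| ≤ 2 * min |s| (SN T) := by
  rcases le_total 0 s with hs | hs
  · rw [abs_of_nonneg hs]; exact trans_pos h hs
  · rw [abs_of_nonpos hs]
    have h1 := trans_pos h (s := -s) (by linarith)
    have h2 := integral_sub_right_eq_self (fun x => |dd T (x - s) - dd T x|) (-s) (μ := volume)
    rw [← h2]
    refine le_trans (le_of_eq ?_) h1
    congr 1; funext x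
    rw [abs_sub_comm, sub_neg_eq_add, add_sub_cancel_right]

lemma min_le_sqrt {a b : ℝ} (ha : 0 ≤ a) (hb : 0 ≤ b) : min a b ≤ Real.sqrt a * Real.sqrt b := by
  have h1 := Real.sqrt_nonneg a
  have h2 := Real.sqrt_nonneg b
  rcases le_total a b with h | h
  · rw [min_eq_left h]
    have h3 := Real.sqrt_le_sqrt h
    calc a = Real.sqrt a * Real.sqrt a := (Real.mul_self_sqrt ha).symm
      _ ≤ _ := by gcongr
  · rw [min_eq_right h]
    have h3 := Real.sqrt_le_sqrt h
    calc b = Real.sqrt b * Real.sqrt b := (Real.mul_self_sqrt hb).symm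
      _ ≤ _ := by gcongr

/-- correlation of the density with itself -/
lemma corr_le {T : ℝ} (h : Big T) (s : ℝ) :
    |(∫ x, dd T (x - s) * dd T x) - ∫ x, dd T x ^ 2| ≤ 2 * (Real.sqrt (SN T) * om s) := by
  have i1 : Integrable (fun x => dd T (x - s) * dd T x) := by
    refine (dd_integrable h).mono' ((dd_shift_integrable h s).aestronglyMeasurable.mul (dd_integrable h).aestronglyMeasurable) ?_
    filter_upwards with x
    rw [norm_mul, Real.norm_of_nonneg (dd_nonneg h _), Real.norm_of_nonneg (dd_nonneg h _)]
    have h1 := dd_le_one h (x - s)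
    have h2 := dd_nonneg h x
    nlinarith
  rw [← integral_sub i1 (dd_sq_integrable h)]
  have e : ∀ x, dd T (x - s) * dd T x - dd T x ^ 2 = dd T x * (dd T (x - s) - dd T x) := fun x => by ring
  simp_rw [e]
  refine (norm_integral_le_integral_norm (μ := volume) (fun x => dd T x * (dd T (x - s) - dd T x))).trans ?_
  have h3 : ∫ x, ‖dd T x * (dd T (x - s) - dd T x)‖ ≤ ∫ x, |dd T (x - s) - dd T x| := by
    apply integral_mono_of_nonneg
    · filter_upwards with x; exact norm_nonneg _
    · exact ((dd_shift_integrable h s).sub (dd_integrable h)).abs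
    · filter_upwards with x
      rw [norm_mul, Real.norm_of_nonneg (dd_nonneg h _)]
      exact mul_le_of_le_one_left (norm_nonneg _) (dd_le_one h x)
  refine h3.trans ((trans_le h s).trans ?_)
  have h4 := min_le_sqrt (abs_nonneg s) h.S0.le
  have h5 : Real.sqrt |s| ≤ om s := by unfold om; linarith
  have h6 := Real.sqrt_nonneg (SN T)
  have h7 : Real.sqrt |s| * Real.sqrt (SN T) ≤ Real.sqrt (SN T) * om s := by
    rw [mul_comm]; gcongr
  linarith

/-- the model measure -/
noncomputable def nuS (T : ℝ) : Measure ℝ := volume.withDensity (fun x => ENNReal.ofReal (dd T x))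

lemma nuS_finite {T : ℝ} (h : Big T) : IsFiniteMeasure (nuS T) := by
  unfold nuS
  apply isFiniteMeasure_withDensity_ofReal
  exact (dd_integrable h).hasFiniteIntegral

lemma integral_nuS {T : ℝ} (h : Big T) (f : ℝ → ℝ) : ∫ x, f x ∂(nuS T) = ∫ x, dd T x * f x := by
  unfold nuS
  rw [integral_withDensity_eq_integral_toReal_smul]
  · congr 1; funext x
    rw [ENNReal.toReal_ofReal (dd_nonneg h x), smul_eq_mul]
  · exact (dd_measurable T).ennreal_ofReal
  · filter_upwards with x
    exact ENNReal.ofReal_lt_top

lemma nuS_real {T : ℝ} (h : Big T) {s : Set ℝ} (hs : MeasurableSet s) : (nuS T).real s = ∫ x in s, dd T x := by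
  have := nuS_finite h
  have e : (nuS T).real s = ∫ x, s.indicator (fun _ => (1:ℝ)) x ∂(nuS T) := by
    rw [integral_indicator hs, setIntegral_const, smul_eq_mul, mul_one]
  rw [e, integral_nuS h, ← integral_indicator hs]
  congr 1; funext x
  by_cases hx : x ∈ s
  · rw [indicator_of_mem hx, indicator_of_mem hx, mul_one]
  · rw [indicator_of_notMem hx, indicator_of_notMem hx, mul_zero]

end Pool.Agent.Helper4.PF
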