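import Pool.Agent.Helper4.PF.Rvm
import Pool.Agent.Helper4.PU.Final

namespace Pool.Agent.Helper4.PF

open Set MeasureTheory Filter Topology
open Pool.Agent.Helper57.Zeta
open Pool.Agent.Helper57.PC
open Pool.Agent.Helper57.LH (WP WP_mono WP_nonneg WP_add WP_smul WP_neg WP_sum CLA CLA_pos one_le_log Gm Gm_nonneg gB gB_cont gB_le gB_nonneg log_pow_le NT_le_ev ic ic_apply ic_nonneg ic_le_one pairCount_WP)
open Pool.Agent.Helper4.PC
open Pool.Agent.Helper4.PU

/-- the central kernel law at all scales up to a power of T -/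
def ULP (c C : ℝ) : Prop := ∀ᶠ T : ℝ in atTop, ∀ B : ℝ, 9600 ≤ B → B ≤ T ^ c →
  |WP T (gB B) - SN T * (AT T * B)| ≤ C * (SN T / B)

/-- all the input on the central kernels in one package -/
def PackP (c K T : ℝ) : Prop := Big T ∧ CAT ≤ Real.log T ∧ 9600 * 4 ≤ T ^ c ∧
  (∀ B : ℝ, 9600 ≤ B → B ≤ T ^ c → WP T (gB B) ≤ K * (SN T * B) ∧ QQ (muT T) (nuS T) (gB B) ≤ K * (SN T / B)) ∧
  (∀ (φ : ℝ → ℝ) (M N : ℝ), Wb M φ → ∫ s, |φ s| ≤ N → M ≤ T ^ (2/5 : ℝ) → N ≤ T ^ c →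
    |QQ (muT T) (nuS T) φ - (WP T φ - SN T * AT T * ∫ s, φ s)| ≤ SN T / T ^ c)

lemma pow_small (k : ℝ) {s : ℝ} (hs : 0 < s) : ∀ᶠ T : ℝ in atTop, k ≤ T ^ s :=
  (tendsto_rpow_atTop hs).eventually_ge_atTop k

lemma gB_abs_int {B : ℝ} (hB : 0 < B) : ∫ s, |gB B s| = B := by
  have e : (fun s => |gB B s|) = gB B := by
    funext s
    exact abs_of_nonneg (gB_nonneg B s)
  rw [e, gB_integral hB]

theorem exists_packP {c θ C C' : ℝ} (hc : 0 < c) (hc1 : c ≤ 1/20) (hθ : 0 ≤ θ) (hcθ : 2 * c + θ < 1) (hC : 0 ≤ C) (hC' : 0 ≤ C')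
    (hU : ULP c C) (hN : NLP θ C') : ∃ K : ℝ, 1 ≤ K ∧ ∀ᶠ T : ℝ in atTop, PackP c K T := by
  have hl := Real.tendsto_log_atTop
  have hell := ell_nonneg
  have hpi := Real.pi_pos
  have hpi4 := Real.pi_lt_four
  refine ⟨3 + C, by linarith, ?_⟩
  filter_upwards [hU, eventually_ge_atTop (7:ℝ), hl.eventually_ge_atTop CAT, pow_small (9600 * 4) hc,
    log_pow_le 32 1 (s := 19/20) (by norm_num), pow_small (8 * (4 * C' + 6)) (s := 1 - (2 * c + θ)) (by linarith),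
    pow_small (W0 ^ 2) (s := 3/10) (by norm_num), hl.eventually_ge_atTop 1, hl.eventually_ge_atTop (16 * (4 * C' + 6))] with T g1 g2 g3 g4 g5 g6 g7 g8 g9
  have hb : Big T := ⟨by linarith, g2⟩
  have hT0 : 0 < T := by linarith
  have hT1 : 1 ≤ T := by linarith
  have hS := hb.S0
  have hL0 := hb.Lpos
  have hW0 := W0_pos
  have hTc : 0 < T ^ c := by positivity
  -- the general comparison
  have hgen : ∀ (φ : ℝ → ℝ) (M N : ℝ), Wb M φ → ∫ s, |φ s| ≤ N → M ≤ T ^ (2/5 : ℝ) → N ≤ T ^ c →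
    |QQ (muT T) (nuS T) φ - (WP T φ - SN T * AT T * ∫ s, φ s)| ≤ SN T / T ^ c := by
    intro φ M N hW hN1 hM hN2
    refine (QQs hb (kd_law hθ hC' hN hb) hW hN1).trans ?_
    have hM0 := hW.nonneg
    have hN0 : 0 ≤ N := (integral_nonneg fun _ => abs_nonneg _).trans hN1
    have hSe : SN T = T * Real.log T / (2 * Real.pi) := rfl
    -- first term
    have a1 : Real.sqrt (SN T) ≤ T ^ (1/2 : ℝ) * Real.log T := by
      rw [Real.sqrt_le_left (by positivity), mul_pow, ← Real.rpow_natCast (T ^ (1/2 : ℝ)), ← Real.rpow_mul hT0.le]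
      norm_num
      rw [hSe]
      have h1 : T * Real.log T / (2 * Real.pi) ≤ T * Real.log T := div_le_self (by positivity) (by linarith [Real.pi_gt_three])
      have h2 : Real.log T ≤ Real.log T ^ 2 := by nlinarith
      nlinarith
    have a2 : 2 * Real.sqrt (SN T) * M ≤ (SN T / T ^ c) / 2 := by
      have h1 : 2 * Real.sqrt (SN T) * M ≤ 2 * (T ^ (1/2 : ℝ) * Real.log T) * T ^ (2/5 : ℝ) := by gcongr
      refine h1.trans ?_
      have e1 : T ^ (1/2 : ℝ) * T ^ (2/5 : ℝ) = T ^ (9/10 : ℝ) := by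
        rw [← Real.rpow_add hT0]; norm_num
      have e2 : 2 * (T ^ (1/2 : ℝ) * Real.log T) * T ^ (2/5 : ℝ) = 2 * Real.log T * T ^ (9/10 : ℝ) := by rw [← e1]; ring
      rw [e2, hSe, le_div_iff₀ (by norm_num), le_div_iff₀ hTc, le_div_iff₀ (by positivity)]
      have h3 : T ^ c ≤ T ^ (1/20 : ℝ) := Real.rpow_le_rpow_of_exponent_le hT1 hc1
      have e3 : T ^ (9/10 : ℝ) * T ^ (1/20 : ℝ) = T ^ (19/20 : ℝ) := by
        rw [← Real.rpow_add hT0]; norm_num
      have h4 : 32 * T ^ (19/20 : ℝ) ≤ T := by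
        have : 32 * Real.log T ^ 1 * T ^ (19/20 : ℝ) ≤ T := g5
        rw [pow_one] at this
        refine le_trans ?_ this
        have h5 : 32 * 1 ≤ 32 * Real.log T := by gcongr
        have h6 : 0 < T ^ (19/20 : ℝ) := by positivity
        nlinarith
      calc 2 * Real.log T * T ^ (9/10 : ℝ) * 2 * T ^ c * (2 * Real.pi) ≤ 2 * Real.log T * T ^ (9/10 : ℝ) * 2 * T ^ (1/20 : ℝ) * (2 * 4) := by gcongr
        _ = Real.log T * (32 * (T ^ (9/10 : ℝ) * T ^ (1/20 : ℝ))) := by ring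
        _ = Real.log T * (32 * T ^ (19/20 : ℝ)) := by rw [e3]
        _ ≤ Real.log T * T := by gcongr
        _ = _ := by ring
    have a3 : (4 * (C' * T ^ θ + 1) + 2) * N ≤ (SN T / T ^ c) / 2 := by
      have h1 : (1:ℝ) ≤ T ^ θ := Real.one_le_rpow hT1 hθ
      have h2 : (4 * (C' * T ^ θ + 1) + 2) * N ≤ ((4 * C' + 6) * T ^ θ) * T ^ c := by
        have : 4 * (C' * T ^ θ + 1) + 2 ≤ (4 * C' + 6) * T ^ θ := by nlinarith
        gcongr
      refine h2.trans ?_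
      rw [hSe, le_div_iff₀ (by norm_num), le_div_iff₀ hTc, le_div_iff₀ (by positivity)]
      have e1 : T ^ θ * T ^ c * T ^ c = T ^ (2 * c + θ) := by
        rw [← Real.rpow_add hT0, ← Real.rpow_add hT0]; congr 1; ring
      have e2 : T ^ (2 * c + θ) ≤ T := by
        calc T ^ (2 * c + θ) ≤ T ^ (1:ℝ) := Real.rpow_le_rpow_of_exponent_le hT1 hcθ.le
          _ = T := Real.rpow_one T
      calc (4 * C' + 6) * T ^ θ * T ^ c * 2 * T ^ c * (2 * Real.pi) ≤ (4 * C' + 6) * T ^ θ * T ^ c * 2 * T ^ c * (2 * 4) := by gcongr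
        _ = (16 * (4 * C' + 6)) * (T ^ θ * T ^ c * T ^ c) := by ring
        _ = (16 * (4 * C' + 6)) * T ^ (2 * c + θ) := by rw [e1]
        _ ≤ Real.log T * T := by gcongr
        _ = _ := by ring
    have a4 : 4 * (C' * T ^ θ + 1) + 2 = (4 * (C' * T ^ θ + 1) + 2) := rfl
    linarith
  refine ⟨hb, g3, g4, ?_, hgen⟩
  intro B hB hBc
  have hB0 : 0 < B := by linarith
  have hAT := abs_le.mp (AT_close hb.h3)
  have hCAT : CAT / Real.log T ≤ 1 := by rw [div_le_one hL0]; exact g3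
  have h1 := abs_le.mp (g1 B hB hBc)
  have hSB : 0 ≤ SN T / B := by positivity
  constructor
  · have h2 : SN T * (AT T * B) ≤ SN T * (2 * B) := by
      gcongr
      linarith [hAT.2]
    have h3 : SN T / B ≤ SN T * B := by
      rw [div_le_iff₀ hB0]
      have : 1 ≤ B * B := by nlinarith
      calc SN T = SN T * 1 := (mul_one _).symm
        _ ≤ SN T * (B * B) := by gcongr
        _ = _ := by ring
    have h4 : C * (SN T / B) ≤ C * (SN T * B) := by gcongr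
    have h5 : 0 ≤ SN T * B := by positivity
    nlinarith [h1.2]
  · have hM : B ^ 2 * W0 ^ 2 ≤ T ^ (2/5 : ℝ) := by
      have h2 : B ^ 2 ≤ T ^ (1/10 : ℝ) := by
        have h3 : B ≤ T ^ (1/20 : ℝ) := hBc.trans (Real.rpow_le_rpow_of_exponent_le hT1 hc1)
        calc B ^ 2 ≤ (T ^ (1/20 : ℝ)) ^ 2 := by gcongr
          _ = T ^ (1/10 : ℝ) := by rw [← Real.rpow_natCast, ← Real.rpow_mul hT0.le]; norm_num
      have e : T ^ (2/5 : ℝ) = T ^ (1/10 : ℝ) * T ^ (3/10 : ℝ) := by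
        rw [← Real.rpow_add hT0]; norm_num
      rw [e]
      gcongr
    have h2 := abs_le.mp (hgen (gB B) _ B (Wb_gB (by linarith)) (gB_abs_int hB0).le hM hBc)
    rw [gB_integral hB0] at h2
    have h3 : SN T / T ^ c ≤ SN T / B := by gcongr
    have e : SN T * AT T * B = SN T * (AT T * B) := by ring
    rw [e] at h2
    have h4 : (3 + C) * (SN T / B) = 3 * (SN T / B) + C * (SN T / B) := by ring
    rw [h4]
    linarith [h1.2, h2.2]

end Pool.Agent.Helper4.PF
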