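import Pool.Agent.Helper4.PF.Nu

namespace Pool.Agent.Helper4.PF

open Set MeasureTheory Filter Topology
open Pool.Agent.Helper57.Zeta
open Pool.Agent.Helper57.PC
open Pool.Agent.Helper57.LH (one_le_log WP)
open Pool.Agent.Helper4.PC
open Pool.Agent.Helper4.PU

/-- Kolmogorov distance -/
def Kd (μ ν : Measure ℝ) (E : ℝ) : Prop := ∀ x : ℝ, |μ.real (Iic x) - ν.real (Iic x)| ≤ E

lemma Kd.Ioc {μ ν : Measure ℝ} [IsFiniteMeasure μ] [IsFiniteMeasure ν] {E : ℝ} (h : Kd μ ν E) (a b : ℝ) :
    |μ.real (Ioc a b) - ν.real (Ioc a b)| ≤ 2 * E := by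
  have hE : 0 ≤ E := (abs_nonneg _).trans (h 0)
  rcases le_total a b with hab | hab
  · have e : ∀ (κ : Measure ℝ) [IsFiniteMeasure κ], κ.real (Set.Ioc a b) = κ.real (Iic b) - κ.real (Iic a) := by
      intro κ _
      have h1 : Iic b = Iic a ∪ Set.Ioc a b := (Iic_union_Ioc_eq_Iic hab).symm
      rw [h1, measureReal_union _ measurableSet_Ioc]
      · ring
      · rw [Set.disjoint_left]
        intro x hx hx2
        exact absurd hx2.1 (not_lt.mpr hx)
    rw [e μ, e ν]
    have h1 := abs_le.mp (h a)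
    have h2 := abs_le.mp (h b)
    rw [abs_le]
    constructor <;> linarith [h1.1, h1.2, h2.1, h2.2]
  · rw [Ioc_eq_empty (not_lt.mpr hab)]
    simp only [measureReal_empty, sub_self, abs_zero]
    linarith

/-- functions whose level sets are intervals -/
theorem Kd.layer {μ ν : Measure ℝ} [IsFiniteMeasure μ] [IsFiniteMeasure ν] {E : ℝ} (h : Kd μ ν E) {f : ℝ → ℝ} (hm : Measurable f)
    (h0 : ∀ x, 0 ≤ f x) (h1 : ∀ x, f x ≤ 1) (hI : ∀ t > 0, ∃ a b : ℝ, {x | t < f x} = Set.Ioc a b) :
    |∫ x, f x ∂μ - ∫ x, f x ∂ν| ≤ 2 * E := by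
  have hE : 0 ≤ E := (abs_nonneg _).trans (h 0)
  have hint : ∀ (κ : Measure ℝ) [IsFiniteMeasure κ], Integrable f κ := by
    intro κ _
    apply Integrable.of_bound (C := 1) hm.aestronglyMeasurable
    filter_upwards with x
    rw [Real.norm_of_nonneg (h0 x)]
    exact h1 x
  have hlc : ∀ (κ : Measure ℝ) [IsFiniteMeasure κ], ∫ x, f x ∂κ = ∫ t in Set.Ioc 0 1, κ.real {x | t < f x} := by
    intro κ _
    rw [(hint κ).integral_eq_integral_meas_lt (Eventually.of_forall h0)]
    apply setIntegral_eq_of_subset_of_forall_sdiff_eq_zero measurableSet_Ioi Ioc_subset_Ioi_self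
    intro t ht
    have h3 : {x | t < f x} = ∅ := by
      ext x
      simp only [Set.mem_ofPred_eq, mem_empty_iff_false, iff_false, not_lt]
      have h4 : 1 < t := by
        by_contra hc
        push Not at hc
        exact ht.2 ⟨ht.1, hc⟩
      linarith [h1 x]
    rw [h3, measureReal_empty]
  have hii : ∀ (κ : Measure ℝ) [IsFiniteMeasure κ], IntegrableOn (fun t => κ.real {x | t < f x}) (Set.Ioc 0 1) := by
    intro κ _
    have hmeas : Measurable (fun t => κ.real {x | t < f x}) := by
      apply Antitone.measurable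
      intro s t hst
      exact measureReal_mono (fun x hx => lt_of_le_of_lt hst hx)
    apply Integrable.of_bound (C := κ.real univ) hmeas.aestronglyMeasurable
    filter_upwards with t
    rw [Real.norm_of_nonneg measureReal_nonneg]
    exact measureReal_mono (subset_univ _)
  rw [hlc μ, hlc ν, ← integral_sub (hii μ) (hii ν)]
  have hb : ∀ t ∈ Set.Ioc (0:ℝ) 1, ‖μ.real {x | t < f x} - ν.real {x | t < f x}‖ ≤ 2 * E := by
    intro t ht
    obtain ⟨a, b, hab⟩ := hI t ht.1
    rw [hab]
    exact h.Ioc a b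
  have := norm_setIntegral_le_of_norm_le_const (μ := volume) (s := Set.Ioc (0:ℝ) 1) (by simp) hb
  rw [Real.norm_eq_abs] at this
  simpa using this

lemma dd_level {T : ℝ} (h : Big T) (s : ℝ) {t : ℝ} (ht : 0 < t) :
    {x | t < dd T (x - s)} = Set.Ioc (s + Real.log T * Real.exp (t * Real.log T)) (s + SN T) := by
  have hL := h.Lpos
  ext x
  simp only [Set.mem_ofPred_eq, Set.mem_Ioc]
  constructor
  · intro hx
    have h1 : x - s ∈ Icc (Real.log T) (SN T) := by
      by_contra hc
      rw [dd_of_notMem hc] at hx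
      linarith
    rw [dd_of_mem h1, lt_div_iff₀ hL, Real.lt_log_iff_exp_lt (div_pos (by linarith [h1.1]) hL), lt_div_iff₀ hL] at hx
    constructor
    · linarith
    · linarith [h1.2]
  · rintro ⟨h1, h2⟩
    have h3 : 1 ≤ Real.exp (t * Real.log T) := Real.one_le_exp (by positivity)
    have h4 : x - s ∈ Icc (Real.log T) (SN T) := ⟨by nlinarith, by linarith⟩
    rw [dd_of_mem h4, lt_div_iff₀ hL, Real.lt_log_iff_exp_lt (div_pos (by linarith [h4.1]) hL), lt_div_iff₀ hL]
    linarith

/-- the averages of the translated density -/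
noncomputable def Pm (T : ℝ) (μ : Measure ℝ) (s : ℝ) : ℝ := ∫ x, dd T (x - s) ∂μ

lemma Pm_close {T E : ℝ} (h : Big T) (hK : Kd (muT T) (nuS T) E) (s : ℝ) : |Pm T (muT T) s - Pm T (nuS T) s| ≤ 2 * E := by
  have := nuS_finite h
  unfold Pm
  apply hK.layer ((dd_measurable T).comp (by fun_prop)) (fun x => dd_nonneg h _) (fun x => dd_le_one h _)
  intro t ht
  exact ⟨_, _, dd_level h s ht⟩

lemma Pm_nu {T : ℝ} (h : Big T) (s : ℝ) : |Pm T (nuS T) s - ∫ x, dd T x ^ 2| ≤ 2 * (Real.sqrt (SN T) * om s) := by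
  have := corr_le h s
  unfold Pm
  rw [integral_nuS h]
  have e : ∫ x, dd T x * dd T (x - s) = ∫ x, dd T (x - s) * dd T x := by
    congr 1; funext x; ring
  rw [e]
  exact this

lemma II_eq {T : ℝ} (h : Big T) (μ : Measure ℝ) [IsFiniteMeasure μ] {φ : ℝ → ℝ} (hφ : Integrable φ) :
    II μ (nuS T) φ = ∫ s, φ s * Pm T μ s := by
  unfold II Pm
  have e1 : ∀ x, ∫ y, φ (x - y) ∂(nuS T) = ∫ s, φ s * dd T (x - s) := by
    intro x
    rw [integral_nuS h]
    have := integral_sub_left_eq_self (fun s => φ s * dd T (x - s)) volume x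
    rw [← this]
    congr 1; funext y
    rw [sub_sub_cancel]; ring
  simp_rw [e1]
  rw [integral_integral_swap]
  · congr 1; funext s
    rw [integral_const_mul]
  · have h0 : Integrable (fun q : ℝ × ℝ => (1:ℝ) * φ q.2) (μ.prod volume) := (integrable_const (1:ℝ)).mul_prod hφ
    refine h0.norm.mono' ?_ ?_
    · have e : (Function.uncurry fun (x s : ℝ) => φ s * dd T (x - s)) = fun q : ℝ × ℝ => ((1:ℝ) * φ q.2) * dd T (q.1 - q.2) := by
        funext q; simp only [Function.uncurry]; ring
      rw [e]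
      exact h0.aestronglyMeasurable.mul ((dd_measurable T).comp (by fun_prop)).aestronglyMeasurable
    · filter_upwards with q
      simp only [Function.uncurry, one_mul]
      rw [norm_mul, Real.norm_of_nonneg (dd_nonneg h _)]
      exact mul_le_of_le_one_right (norm_nonneg _) (dd_le_one h _)

lemma Pm_meas (T : ℝ) (μ : Measure ℝ) [IsFiniteMeasure μ] : AEStronglyMeasurable (fun s => Pm T μ s) volume := by
  unfold Pm
  have h1 : StronglyMeasurable (Function.uncurry fun (s x : ℝ) => dd T (x - s)) := by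
    apply Measurable.stronglyMeasurable
    exact (dd_measurable T).comp (by fun_prop)
  exact h1.integral_prod_right.aestronglyMeasurable

lemma Pm_bdd {T : ℝ} (h : Big T) (μ : Measure ℝ) [IsFiniteMeasure μ] (s : ℝ) : |Pm T μ s| ≤ μ.real univ := by
  unfold Pm
  have h1 := norm_integral_le_of_norm_le_const (μ := μ) (f := fun x => dd T (x - s)) (C := 1)
    (by filter_upwards with x; rw [Real.norm_of_nonneg (dd_nonneg h _)]; exact dd_le_one h _)
  rwa [one_mul] at h1

lemma Pm_int {T : ℝ} (h : Big T) (μ : Measure ℝ) [IsFiniteMeasure μ] {φ : ℝ → ℝ} (hφ : Integrable φ) : Integrable (fun s => φ s * Pm T μ s) := by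
  refine (hφ.norm.mul_const (μ.real univ)).mono' (hφ.aestronglyMeasurable.mul (Pm_meas T μ)) ?_
  filter_upwards with s
  rw [norm_mul]
  exact mul_le_mul_of_nonneg_left (Pm_bdd h μ s) (norm_nonneg _)

/-- the quadratic form of `μ_T - ν*_T` is the pair sum minus its exact mean value, up to a power saving -/
theorem QQs {T E : ℝ} (h : Big T) (hK : Kd (muT T) (nuS T) E) {φ : ℝ → ℝ} {M N : ℝ} (hW : Wb M φ) (hN : ∫ s, |φ s| ≤ N) :
    |QQ (muT T) (nuS T) φ - (WP T φ - SN T * AT T * ∫ s, φ s)| ≤ 2 * Real.sqrt (SN T) * M + (4 * E + 2) * N := by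
  have := nuS_finite h
  have hE : 0 ≤ E := (abs_nonneg _).trans (hK 0)
  have hL := h.L0
  have hφ := hW.int
  set D := ∫ x, dd T x ^ 2 with hD
  have hDe : D = SN T * AT T - 2 / Real.log T := dd_sq_integral h
  unfold QQ
  rw [II_muT, II_eq h _ hφ, II_eq h _ hφ]
  have i1 := Pm_int h (muT T) hφ
  have i2 := Pm_int h (nuS T) hφ
  have iD : Integrable (fun s => φ s * D) := hφ.mul_const _
  have e1 : WP T φ - 2 * (∫ s, φ s * Pm T (muT T) s) + (∫ s, φ s * Pm T (nuS T) s) - (WP T φ - SN T * AT T * ∫ s, φ s) =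
      (-2) * (∫ s, φ s * (Pm T (muT T) s - Pm T (nuS T) s)) - (∫ s, φ s * (Pm T (nuS T) s - D)) + (2 / Real.log T) * ∫ s, φ s := by
    have a1 : ∫ s, φ s * (Pm T (muT T) s - Pm T (nuS T) s) = (∫ s, φ s * Pm T (muT T) s) - ∫ s, φ s * Pm T (nuS T) s := by
      rw [← integral_sub i1 i2]
      congr 1; funext s; ring
    have a2 : ∫ s, φ s * (Pm T (nuS T) s - D) = (∫ s, φ s * Pm T (nuS T) s) - (∫ s, φ s) * D := by
      rw [← integral_mul_const, ← integral_sub i2 iD]
      congr 1; funext s; ring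
    rw [a1, a2, hDe]
    ring
  rw [e1]
  have b1 : |∫ s, φ s * (Pm T (muT T) s - Pm T (nuS T) s)| ≤ 2 * E * N := by
    refine (norm_integral_le_integral_norm (μ := volume) (fun s => φ s * (Pm T (muT T) s - Pm T (nuS T) s))).trans ?_
    calc ∫ s, ‖φ s * (Pm T (muT T) s - Pm T (nuS T) s)‖ ≤ ∫ s, |φ s| * (2 * E) := by
          apply integral_mono_of_nonneg
          · filter_upwards with s; exact norm_nonneg _
          · exact hφ.abs.mul_const _
          · filter_upwards with s
            rw [norm_mul]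
            exact mul_le_mul_of_nonneg_left (Pm_close h hK s) (norm_nonneg _)
      _ = (∫ s, |φ s|) * (2 * E) := integral_mul_const _ _
      _ ≤ N * (2 * E) := by gcongr
      _ = _ := by ring
  have b2 : |∫ s, φ s * (Pm T (nuS T) s - D)| ≤ 2 * Real.sqrt (SN T) * M := by
    refine (norm_integral_le_integral_norm (μ := volume) (fun s => φ s * (Pm T (nuS T) s - D))).trans ?_
    calc ∫ s, ‖φ s * (Pm T (nuS T) s - D)‖ ≤ ∫ s, (2 * Real.sqrt (SN T)) * (om s * |φ s|) := by
          apply integral_mono_of_nonneg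
          · filter_upwards with s; exact norm_nonneg _
          · exact hW.absint.const_mul _
          · filter_upwards with s
            rw [norm_mul, Real.norm_eq_abs, Real.norm_eq_abs]
            have h1 := Pm_nu h s
            calc |φ s| * |Pm T (nuS T) s - D| ≤ |φ s| * (2 * (Real.sqrt (SN T) * om s)) := by gcongr
              _ = _ := by ring
      _ = (2 * Real.sqrt (SN T)) * ∫ s, om s * |φ s| := integral_const_mul _ _
      _ ≤ _ := by
          have := hW.2
          gcongr
  have b3 : |(2 / Real.log T) * ∫ s, φ s| ≤ 2 * N := by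
    rw [abs_mul, abs_of_pos (by positivity)]
    have a1 : |∫ s, φ s| ≤ N := (norm_integral_le_integral_norm (μ := volume) φ).trans hN
    have a2 : 2 / Real.log T ≤ 2 := div_le_self (by norm_num) hL
    gcongr
  have c1 := abs_le.mp b1
  have c2 := abs_le.mp b2
  have c3 := abs_le.mp b3
  rw [abs_le]
  constructor
  · nlinarith [c1.1, c1.2, c2.1, c2.2, c3.1, c3.2]
  · nlinarith [c1.1, c1.2, c2.1, c2.2, c3.1, c3.2]

end Pool.Agent.Helper4.PF
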