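import Pool.Agent.Helper4.PF.QQs

namespace Pool.Agent.Helper4.PF

open Set MeasureTheory Filter Topology
open Pool.Agent.Helper57.Zeta
open Pool.Agent.Helper57.PC
open Pool.Agent.Helper57.LH (one_le_log WP)
open Pool.Agent.Helper4.PC
open Pool.Agent.Helper4.PU

/-- Riemann-von Mangoldt with a power saving -/
def NLP (θ C : ℝ) : Prop := ∀ t : ℝ, 3 ≤ t → |NT t - t / (2 * Real.pi) * (Real.log (t / (2 * Real.pi)) - 1)| ≤ C * t ^ θ

lemma NT_mono' {s t : ℝ} (h : s ≤ t) : NT s ≤ NT t := by
  unfold NT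
  apply Finset.sum_le_sum_of_subset_of_nonneg
  · intro ρ hρ
    rw [mem_Zf] at hρ ⊢
    exact ⟨hρ.1, hρ.2.1, hρ.2.2.trans h⟩
  · intro ρ _ _
    exact Nat.cast_nonneg _

lemma muT_Iic {T x : ℝ} (h : Big T) (hx : x ≤ SN T) : (muT T).real (Iic x) = NT (x * (2 * Real.pi) / Real.log T) := by
  classical
  have hL := h.Lpos
  have hpi := Real.pi_pos
  rw [muT_real T measurableSet_Iic]
  have hs : Zf (x * (2 * Real.pi) / Real.log T) ⊆ Zf T := by
    intro ρ hρ
    rw [mem_Zf] at hρ ⊢
    refine ⟨hρ.1, hρ.2.1, hρ.2.2.trans ?_⟩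
    rw [div_le_iff₀ hL]
    unfold SN at hx
    rwa [le_div_iff₀ (by positivity)] at hx
  unfold NT
  rw [← Finset.sum_subset hs]
  · apply Finset.sum_congr rfl
    intro ρ hρ
    rw [mem_Zf] at hρ
    have h2 : xp T ρ ∈ Iic x := by
      unfold xp
      rw [mem_Iic, div_le_iff₀ (by positivity)]
      have := hρ.2.2
      rwa [le_div_iff₀ hL] at this
    rw [indicator_of_mem h2, mul_one]
  · intro ρ hρ hρ2
    rw [mem_Zf] at hρ hρ2
    have h2 : xp T ρ ∉ Iic x := by
      intro hc
      apply hρ2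
      refine ⟨hρ.1, hρ.2.1, ?_⟩
      unfold xp at hc
      rw [mem_Iic, div_le_iff₀ (by positivity)] at hc
      rwa [le_div_iff₀ hL]
    rw [indicator_of_notMem h2, mul_zero]

lemma muT_Iic_ge {T x : ℝ} (hx : SN T ≤ x) (h : Big T) : (muT T).real (Iic x) = (muT T).real (Iic (SN T)) := by
  have hL := h.Lpos
  rw [muT_real T measurableSet_Iic, muT_real T measurableSet_Iic]
  apply Finset.sum_congr rfl
  intro ρ hρ
  have h2 : xp T ρ ∈ Iic (SN T) := by
    rw [mem_Zf] at hρ
    unfold xp SN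
    rw [mem_Iic]
    have := hρ.2.2
    gcongr
  rw [indicator_of_mem h2, indicator_of_mem (show xp T ρ ∈ Iic x from le_trans h2 hx)]

lemma nuS_Iic_ge {T x : ℝ} (hx : SN T ≤ x) (h : Big T) : (nuS T).real (Iic x) = (nuS T).real (Iic (SN T)) := by
  rw [nuS_real h measurableSet_Iic, nuS_real h measurableSet_Iic]
  apply setIntegral_eq_of_subset_of_forall_sdiff_eq_zero measurableSet_Iic (Iic_subset_Iic.mpr hx)
  intro y hy
  apply dd_gt
  simpa using hy.2

lemma nuS_Iic_lt {T x : ℝ} (hx : x < Real.log T) (h : Big T) : (nuS T).real (Iic x) = 0 := by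
  rw [nuS_real h measurableSet_Iic]
  apply setIntegral_eq_zero_of_forall_eq_zero
  intro y hy
  apply dd_lt
  exact lt_of_le_of_lt hy hx

theorem kd_law {θ C T : ℝ} (hθ : 0 ≤ θ) (hC : 0 ≤ C) (hN : NLP θ C) (h : Big T) : Kd (muT T) (nuS T) (C * T ^ θ + 1) := by
  have hL := h.Lpos
  have hpi := Real.pi_pos
  have hpi3 := Real.pi_gt_three
  have hpi2 := Real.pi_lt_d2
  have key : ∀ x : ℝ, x ≤ SN T → |(muT T).real (Iic x) - (nuS T).real (Iic x)| ≤ C * T ^ θ + 1 := by
    intro x hx
    rw [muT_Iic h hx]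
    rcases le_or_gt (Real.log T) x with h1 | h1
    · rw [nuS_real h measurableSet_Iic, dd_int_Icc h h1 hx]
      set t := x * (2 * Real.pi) / Real.log T with ht
      have ht1 : 2 * Real.pi ≤ t := by
        rw [ht, le_div_iff₀ hL]
        nlinarith
      have ht2 : t ≤ T := by
        rw [ht, div_le_iff₀ hL]
        unfold SN at hx
        rwa [le_div_iff₀ (by positivity)] at hx
      have h2 := hN t (by linarith)
      have e : t / (2 * Real.pi) = x / Real.log T := by
        rw [ht]; field_simp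
      rw [e] at h2
      have e2 : NT t - HH T x = (NT t - x / Real.log T * (Real.log (x / Real.log T) - 1)) - 1 := by
        unfold HH; ring
      rw [e2]
      refine (abs_sub _ _).trans ?_
      rw [abs_one]
      have h3 : C * t ^ θ ≤ C * T ^ θ := by
        have : 0 ≤ t := by linarith
        gcongr
      linarith
    · rw [nuS_Iic_lt h1 h, sub_zero, abs_of_nonneg (NT_nonneg _)]
      have h2 : NT (x * (2 * Real.pi) / Real.log T) ≤ NT (2 * Real.pi) := by
        apply NT_mono'
        rw [div_le_iff₀ hL]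
        nlinarith
      have h3 := (abs_le.mp (hN (2 * Real.pi) (by linarith))).2
      rw [div_self (by positivity), Real.log_one] at h3
      have h4 : C * (2 * Real.pi) ^ θ ≤ C * T ^ θ := by
        have := h.h4
        gcongr
        linarith
      linarith
  intro x
  rcases le_total x (SN T) with hx | hx
  · exact key x hx
  · rw [muT_Iic_ge hx h, nuS_Iic_ge hx h]
    exact key _ le_rfl

end Pool.Agent.Helper4.PF
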